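import Mathlib

/-!
The exact value of the minimum size of a set which fully infects the strong product grid
`P_m ⊠ P_n` under 3-neighbour bootstrap percolation, for all `m, n ≥ 1`.
-/

namespace Pool.Agent.Results.MP_87c242_co.Determination

/-- The strong product `P_m ⊠ P_n`: two distinct cells `(i, j)`, `(i', j')` are adjacent when
`|i - i'| ≤ 1` and `|j - j'| ≤ 1`. -/
def grid (m n : ℕ) : SimpleGraph (Fin m × Fin n) where
  Adj p q := p ≠ q ∧ ((p.1 : ℕ) ≤ q.1 + 1 ∧ (q.1 : ℕ) ≤ p.1 + 1) ∧
    ((p.2 : ℕ) ≤ q.2 + 1 ∧ (q.2 : ℕ) ≤ p.2 + 1)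
  symm := ⟨fun _ _ h => ⟨h.1.symm, h.2.1.symm, h.2.2.symm⟩⟩
  loopless := ⟨fun _ h => h.1 rfl⟩

section general

variable {V : Type*} [Fintype V]

open Classical in
/-- One round of `r`-neighbour bootstrap percolation:
`A ↦ A ∪ {v : v has at least r neighbours in A}`. -/
noncomputable def round (G : SimpleGraph V) (r : ℕ) (A : Finset V) : Finset V :=
  A ∪ Finset.univ.filter (fun v => r ≤ (A.filter (fun w => G.Adj v w)).card)

/-- `A` fully infects `G`: every vertex is infected after finitely many rounds. -/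
def FullyInfects (G : SimpleGraph V) (r : ℕ) (A : Finset V) : Prop :=
  ∀ v, ∃ t : ℕ, v ∈ (round G r)^[t] A

variable (G : SimpleGraph V) (r : ℕ)

open Classical in
lemma mem_round (A : Finset V) (v : V) :
    v ∈ round G r A ↔ v ∈ A ∨ r ≤ (A.filter (fun w => G.Adj v w)).card := by
  unfold round
  rw [Finset.mem_union, Finset.mem_filter]
  simp

lemma subset_round (A : Finset V) : A ⊆ round G r A := by
  classical
  exact Finset.subset_union_left

lemma iter_mono (A : Finset V) : Monotone (fun t => (round G r)^[t] A) := by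
  apply monotone_nat_of_le_succ
  intro t
  show (round G r)^[t] A ≤ (round G r)^[t + 1] A
  rw [Function.iterate_succ_apply']
  exact subset_round G r _

/-- eventually infected -/
def Ev (A : Finset V) (v : V) : Prop := ∃ t : ℕ, v ∈ (round G r)^[t] A

lemma ev_of_mem {A : Finset V} {v : V} (h : v ∈ A) : Ev G r A v := ⟨0, h⟩

lemma ev_of_three {A : Finset V} {v x y z : V} (hx : Ev G 3 A x) (hy : Ev G 3 A y)
    (hz : Ev G 3 A z) (hxy : x ≠ y) (hxz : x ≠ z) (hyz : y ≠ z)
    (h1 : G.Adj v x) (h2 : G.Adj v y) (h3 : G.Adj v z) : Ev G 3 A v := by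
  classical
  obtain ⟨t1, ht1⟩ := hx
  obtain ⟨t2, ht2⟩ := hy
  obtain ⟨t3, ht3⟩ := hz
  set t := max t1 (max t2 t3) with ht
  have m1 : x ∈ (round G 3)^[t] A := iter_mono G 3 A (le_max_left _ _) ht1
  have m2 : y ∈ (round G 3)^[t] A :=
    iter_mono G 3 A ((le_max_left _ _).trans (le_max_right _ _)) ht2
  have m3 : z ∈ (round G 3)^[t] A :=
    iter_mono G 3 A ((le_max_right _ _).trans (le_max_right _ _)) ht3
  refine ⟨t + 1, ?_⟩
  rw [Function.iterate_succ_apply', mem_round]
  right
  have hsub : ({x, y, z} : Finset V) ⊆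
      ((round G 3)^[t] A).filter (fun w => G.Adj v w) := by
    intro w hw
    simp only [Finset.mem_insert, Finset.mem_singleton] at hw
    rw [Finset.mem_filter]
    rcases hw with rfl | rfl | rfl
    · exact ⟨m1, h1⟩
    · exact ⟨m2, h2⟩
    · exact ⟨m3, h3⟩
  have hc : ({x, y, z} : Finset V).card = 3 := by
    rw [Finset.card_eq_three]
    exact ⟨x, y, z, hxy, hxz, hyz, rfl⟩
  calc 3 = ({x, y, z} : Finset V).card := hc.symm
    _ ≤ _ := Finset.card_le_card hsub

/-- If every vertex of a set `S` has fewer than `r` neighbours outside `S`, then every fully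
infecting set meets `S` (when `S` is nonempty). -/
lemma meets (S : Finset V) (hS : S.Nonempty)
    (hdeg : ∀ v ∈ S, ∀ B : Finset V, Disjoint B S → (∀ w ∈ B, G.Adj v w) → B.card < r)
    (A : Finset V) (hA : FullyInfects G r A) : ∃ v ∈ S, v ∈ A := by
  classical
  by_contra hcon
  push Not at hcon
  have key : ∀ t : ℕ, Disjoint ((round G r)^[t] A) S := by
    intro t
    induction t with
    | zero =>
      rw [Function.iterate_zero_apply, Finset.disjoint_left]
      intro v hv hvS
      exact hcon v hvS hv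
    | succ t ih =>
      rw [Function.iterate_succ_apply', Finset.disjoint_left]
      intro v hv hvS
      rw [mem_round] at hv
      rcases hv with hv | hv
      · exact (Finset.disjoint_left.mp ih) hv hvS
      · have h1 := hdeg v hvS (((round G r)^[t] A).filter (fun w => G.Adj v w))
          (Finset.disjoint_of_subset_left (Finset.filter_subset _ _) ih)
          (fun w hw => (Finset.mem_filter.mp hw).2)
        omega
  obtain ⟨v, hv⟩ := hS
  obtain ⟨t, ht⟩ := hA v
  exact (Finset.disjoint_left.mp (key t)) ht hv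

/-- A fully infecting set that is not everything has a vertex outside with `r` neighbours in it. -/
lemma exists_first (A : Finset V) (hA : FullyInfects G r A) (hne : A ≠ Finset.univ) :
    ∃ v, v ∉ A ∧ ∃ B : Finset V, B ⊆ A ∧ (∀ w ∈ B, G.Adj v w) ∧ r ≤ B.card := by
  classical
  by_contra hcon
  push Not at hcon
  have hfix : round G r A = A := by
    apply Finset.Subset.antisymm _ (subset_round G r A)
    intro v hv
    rw [mem_round] at hv
    rcases hv with hv | hv
    · exact hv
    by_contra hvA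
    have := hcon v hvA (A.filter (fun w => G.Adj v w)) (Finset.filter_subset _ _)
      (fun w hw => (Finset.mem_filter.mp hw).2)
    omega
  apply hne
  rw [Finset.eq_univ_iff_forall]
  intro v
  obtain ⟨t, ht⟩ := hA v
  rwa [Function.iterate_fixed hfix] at ht

end general

section concrete

variable {m n : ℕ}

/-- The cell `(i, j)` exists and is eventually infected. -/
def P (m n : ℕ) (A : Finset (Fin m × Fin n)) (i j : ℕ) : Prop :=
  ∃ (hi : i < m) (hj : j < n), Ev (grid m n) 3 A (⟨i, hi⟩, ⟨j, hj⟩)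

lemma P_step {A : Finset (Fin m × Fin n)} (i j i1 j1 i2 j2 i3 j3 : ℕ) (hi : i < m) (hj : j < n)
    (h1 : P m n A i1 j1) (h2 : P m n A i2 j2) (h3 : P m n A i3 j3)
    (c1 : (i ≠ i1 ∨ j ≠ j1) ∧ i ≤ i1 + 1 ∧ i1 ≤ i + 1 ∧ j ≤ j1 + 1 ∧ j1 ≤ j + 1)
    (c2 : (i ≠ i2 ∨ j ≠ j2) ∧ i ≤ i2 + 1 ∧ i2 ≤ i + 1 ∧ j ≤ j2 + 1 ∧ j2 ≤ j + 1)
    (c3 : (i ≠ i3 ∨ j ≠ j3) ∧ i ≤ i3 + 1 ∧ i3 ≤ i + 1 ∧ j ≤ j3 + 1 ∧ j3 ≤ j + 1)
    (d12 : i1 ≠ i2 ∨ j1 ≠ j2) (d13 : i1 ≠ i3 ∨ j1 ≠ j3) (d23 : i2 ≠ i3 ∨ j2 ≠ j3) :
    P m n A i j := by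
  obtain ⟨hi1, hj1, e1⟩ := h1
  obtain ⟨hi2, hj2, e2⟩ := h2
  obtain ⟨hi3, hj3, e3⟩ := h3
  refine ⟨hi, hj, ev_of_three (grid m n) e1 e2 e3 ?_ ?_ ?_ ?_ ?_ ?_⟩
  · simp only [ne_eq, Prod.mk.injEq, Fin.mk.injEq]; omega
  · simp only [ne_eq, Prod.mk.injEq, Fin.mk.injEq]; omega
  · simp only [ne_eq, Prod.mk.injEq, Fin.mk.injEq]; omega
  · simp only [grid, ne_eq, Prod.mk.injEq, Fin.mk.injEq]; omega
  · simp only [grid, ne_eq, Prod.mk.injEq, Fin.mk.injEq]; omega
  · simp only [grid, ne_eq, Prod.mk.injEq, Fin.mk.injEq]; omega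

lemma fully_of_P {A : Finset (Fin m × Fin n)} (h : ∀ i j, i < m → j < n → P m n A i j) :
    FullyInfects (grid m n) 3 A := by
  rintro ⟨⟨i, hi⟩, ⟨j, hj⟩⟩
  obtain ⟨_, _, h3⟩ := h i j hi hj
  exact h3

/-- three cells suffice when `m, n ≥ 3` -/
lemma big_upper (hm : 3 ≤ m) (hn : 3 ≤ n) :
    ∃ A : Finset (Fin m × Fin n), A.card = 3 ∧ FullyInfects (grid m n) 3 A := by
  classical
  let A : Finset (Fin m × Fin n) :=
    {(⟨0, by omega⟩, ⟨1, by omega⟩), (⟨1, by omega⟩, ⟨0, by omega⟩), (⟨1, by omega⟩, ⟨2, by omega⟩)}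
  refine ⟨A, ?_, ?_⟩
  · rw [Finset.card_eq_three]
    refine ⟨_, _, _, ?_, ?_, ?_, rfl⟩ <;> simp
  · have a01 : P m n A 0 1 := ⟨by omega, by omega, ev_of_mem _ _ (by simp [A])⟩
    have a10 : P m n A 1 0 := ⟨by omega, by omega, ev_of_mem _ _ (by simp [A])⟩
    have a12 : P m n A 1 2 := ⟨by omega, by omega, ev_of_mem _ _ (by simp [A])⟩
    have a11 : P m n A 1 1 := P_step 1 1 0 1 1 0 1 2 (by omega) (by omega) a01 a10 a12
      (by omega) (by omega) (by omega) (by omega) (by omega) (by omega)
    have a00 : P m n A 0 0 := P_step 0 0 0 1 1 0 1 1 (by omega) (by omega) a01 a10 a11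
      (by omega) (by omega) (by omega) (by omega) (by omega) (by omega)
    have a02 : P m n A 0 2 := P_step 0 2 0 1 1 2 1 1 (by omega) (by omega) a01 a12 a11
      (by omega) (by omega) (by omega) (by omega) (by omega) (by omega)
    have a21 : P m n A 2 1 := P_step 2 1 1 0 1 1 1 2 (by omega) (by omega) a10 a11 a12
      (by omega) (by omega) (by omega) (by omega) (by omega) (by omega)
    have a20 : P m n A 2 0 := P_step 2 0 1 0 1 1 2 1 (by omega) (by omega) a10 a11 a21
      (by omega) (by omega) (by omega) (by omega) (by omega) (by omega)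
    -- the first three columns
    have cols : ∀ i, i < m → P m n A i 0 ∧ P m n A i 1 ∧ P m n A i 2 := by
      intro i
      induction i with
      | zero => intro _; exact ⟨a00, a01, a02⟩
      | succ i ih =>
        intro hi
        obtain ⟨b0, b1, b2⟩ := ih (by omega)
        have c1 : P m n A (i + 1) 1 := P_step _ _ _ _ _ _ _ _ hi (by omega) b0 b1 b2
          (by omega) (by omega) (by omega) (by omega) (by omega) (by omega)
        exact ⟨P_step _ _ _ _ _ _ _ _ hi (by omega) b0 b1 c1
          (by omega) (by omega) (by omega) (by omega) (by omega) (by omega), c1,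
          P_step _ _ _ _ _ _ _ _ hi (by omega) b1 b2 c1
          (by omega) (by omega) (by omega) (by omega) (by omega) (by omega)⟩
    have all : ∀ j, j < n → ∀ i, i < m → P m n A i j := by
      intro j
      induction j with
      | zero => intro _ i hi; exact (cols i hi).1
      | succ j ih =>
        intro hj
        have col := ih (by omega)
        have d1 : P m n A 1 (j + 1) := P_step _ _ _ _ _ _ _ _ (by omega) hj
          (col 0 (by omega)) (col 1 (by omega)) (col 2 (by omega))
          (by omega) (by omega) (by omega) (by omega) (by omega) (by omega)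
        have d0 : P m n A 0 (j + 1) := P_step _ _ _ _ _ _ _ _ (by omega) hj
          (col 0 (by omega)) (col 1 (by omega)) d1
          (by omega) (by omega) (by omega) (by omega) (by omega) (by omega)
        intro i
        induction i with
        | zero => intro _; exact d0
        | succ i ih' =>
          intro hi
          exact P_step _ _ _ _ _ _ _ _ (by omega) hj
            (col i (by omega)) (col (i + 1) (by omega)) (ih' (by omega))
            (by omega) (by omega) (by omega) (by omega) (by omega) (by omega)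
    exact fully_of_P fun i j hi hj => all j hj i hi

/-- at least three cells are needed as soon as there are at least three cells -/
lemma three_le (hmn : 3 ≤ m * n) (A : Finset (Fin m × Fin n))
    (hA : FullyInfects (grid m n) 3 A) : 3 ≤ A.card := by
  by_cases h : A = Finset.univ
  · rw [h, Finset.card_univ, Fintype.card_prod, Fintype.card_fin, Fintype.card_fin]
    exact hmn
  · obtain ⟨v, -, B, hB, -, hc⟩ := exists_first _ _ A hA h
    exact hc.trans (Finset.card_le_card hB)

/-- in a single row, nothing is ever infected -/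
lemma path_card (A : Finset (Fin 1 × Fin n)) (hA : FullyInfects (grid 1 n) 3 A) :
    A.card = n := by
  classical
  by_cases h : A = Finset.univ
  · rw [h, Finset.card_univ, Fintype.card_prod, Fintype.card_fin, Fintype.card_fin, one_mul]
  · exfalso
    obtain ⟨v, -, B, hB, hadj, hc⟩ := exists_first _ _ A hA h
    have h1 : B ⊆ Finset.univ.filter (fun w : Fin 1 × Fin n =>
        (w.2 : ℕ) + 1 = v.2 ∨ (w.2 : ℕ) = v.2 + 1) := by
      intro w hw
      rw [Finset.mem_filter]
      refine ⟨Finset.mem_univ _, ?_⟩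
      have h2 := hadj w hw
      obtain ⟨v1, v2⟩ := v
      obtain ⟨w1, w2⟩ := w
      simp only [grid, ne_eq, Prod.mk.injEq] at h2 ⊢
      have : v1 = w1 := Subsingleton.elim _ _
      have h3 : ¬ (v2 = w2) := fun hh => h2.1 ⟨this, hh⟩
      have h4 : (v2 : ℕ) ≠ w2 := fun hh => h3 (Fin.ext hh)
      omega
    have h2 : B.card ≤ 2 := by
      have hinj : Set.InjOn (fun w : Fin 1 × Fin n => (w.2 : ℕ)) (B : Set (Fin 1 × Fin n)) := by
        rintro ⟨a1, a2⟩ - ⟨b1, b2⟩ - hab
        simp only at hab
        exact Prod.ext (Subsingleton.elim _ _) (Fin.ext hab)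
      rw [← Finset.card_image_of_injOn hinj]
      have : B.image (fun w : Fin 1 × Fin n => (w.2 : ℕ)) ⊆ {(v.2 : ℕ) - 1, (v.2 : ℕ) + 1} := by
        intro k hk
        obtain ⟨w, hw, rfl⟩ := Finset.mem_image.mp hk
        have := (Finset.mem_filter.mp (h1 hw)).2
        simp only [Finset.mem_insert, Finset.mem_singleton]
        omega
      exact (Finset.card_le_card this).trans Finset.card_le_two
    omega

end concrete

section two

variable {n : ℕ}

lemma card_col_le (k : ℕ) (B : Finset (Fin 2 × Fin n)) (hB : ∀ w ∈ B, (w.2 : ℕ) = k) :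
    B.card ≤ 2 := by
  classical
  have hinj : Set.InjOn (fun w : Fin 2 × Fin n => w.1) (B : Set (Fin 2 × Fin n)) := by
    intro a ha b hb hab
    exact Prod.ext hab (Fin.ext ((hB a ha).trans (hB b hb).symm))
  rw [← Finset.card_image_of_injOn hinj]
  exact (Finset.card_le_univ _).trans (by simp)

/-- every fully infecting set meets each block of two consecutive columns, and the first and the
last column -/
lemma block (A : Finset (Fin 2 × Fin n)) (hA : FullyInfects (grid 2 n) 3 A) (a b : ℕ)
    (hab : a ≤ b) (hb : b < n) (h : b = a + 1 ∨ a = 0 ∨ b + 1 = n) (hb' : b ≤ a + 1) :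
    ∃ v ∈ A, a ≤ (v.2 : ℕ) ∧ (v.2 : ℕ) ≤ b := by
  classical
  have h1 := meets (grid 2 n) 3
    (Finset.univ.filter (fun p : Fin 2 × Fin n => a ≤ (p.2 : ℕ) ∧ (p.2 : ℕ) ≤ b))
    ⟨(0, ⟨b, hb⟩), by simp [hab]⟩ ?_ A hA
  · obtain ⟨v, hv, hvA⟩ := h1
    exact ⟨v, hvA, (Finset.mem_filter.mp hv).2⟩
  · intro v hv B hdis hadj
    have hv' := (Finset.mem_filter.mp hv).2
    have hw : ∀ w ∈ B, ((w.2 : ℕ) < a ∨ b < (w.2 : ℕ)) ∧ (v.2 : ℕ) ≤ w.2 + 1 ∧
        (w.2 : ℕ) ≤ v.2 + 1 := by
      intro w hw
      refine ⟨?_, (hadj w hw).2.2⟩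
      have := Finset.disjoint_left.mp hdis hw
      rw [Finset.mem_filter] at this
      simp only [Finset.mem_univ, true_and, not_and_or, not_le] at this
      exact this
    have hlt : ∀ w ∈ B, (w.2 : ℕ) < n := fun w _ => w.2.isLt
    by_cases hva : (v.2 : ℕ) = a ∧ 1 ≤ a
    · have : B.card ≤ 2 := card_col_le (a - 1) B (by
        intro w hwB
        have := hw w hwB
        have := hlt w hwB
        omega)
      omega
    · have : B.card ≤ 2 := card_col_le (b + 1) B (by
        intro w hwB
        have := hw w hwB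
        have := hlt w hwB
        omega)
      omega

lemma left_bound (A : Finset (Fin 2 × Fin n)) (hA : FullyInfects (grid 2 n) 3 A) :
    ∀ q, q ≤ n → (q + 1) / 2 ≤ (A.filter (fun p => (p.2 : ℕ) < q)).card := by
  classical
  intro q
  induction q using Nat.strong_induction_on with
  | _ q ih =>
    intro hq
    match q, ih, hq with
    | 0, _, _ => simp
    | 1, _, hq =>
      obtain ⟨v, hv, hv1, hv2⟩ := block A hA 0 0 le_rfl (by omega) (by omega) (by omega)
      have : 0 < (A.filter (fun p => (p.2 : ℕ) < 1)).card :=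
        Finset.card_pos.mpr ⟨v, Finset.mem_filter.mpr ⟨hv, by omega⟩⟩
      omega
    | q + 2, ih, hq =>
      have h1 := ih q (by omega) (by omega)
      obtain ⟨v, hv, hv1, hv2⟩ := block A hA q (q + 1) (by omega) (by omega) (by omega) (by omega)
      have h2 : insert v (A.filter (fun p => (p.2 : ℕ) < q)) ⊆
          A.filter (fun p => (p.2 : ℕ) < q + 2) := by
        intro w hw
        rw [Finset.mem_insert, Finset.mem_filter] at hw
        rw [Finset.mem_filter]
        rcases hw with rfl | hw
        · exact ⟨hv, by omega⟩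
        · exact ⟨hw.1, by omega⟩
      have h3 := Finset.card_le_card h2
      rw [Finset.card_insert_of_notMem (by
        rw [Finset.mem_filter]
        omega)] at h3
      omega

lemma right_bound (A : Finset (Fin 2 × Fin n)) (hA : FullyInfects (grid 2 n) 3 A) :
    ∀ q, q ≤ n → (q + 1) / 2 ≤ (A.filter (fun p => n ≤ (p.2 : ℕ) + q)).card := by
  classical
  intro q
  induction q using Nat.strong_induction_on with
  | _ q ih =>
    intro hq
    match q, ih, hq with
    | 0, _, _ => simp
    | 1, _, hq =>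
      obtain ⟨v, hv, hv1, hv2⟩ := block A hA (n - 1) (n - 1) le_rfl (by omega) (by omega)
        (by omega)
      have : 0 < (A.filter (fun p => n ≤ (p.2 : ℕ) + 1)).card :=
        Finset.card_pos.mpr ⟨v, Finset.mem_filter.mpr ⟨hv, by omega⟩⟩
      omega
    | q + 2, ih, hq =>
      have h1 := ih q (by omega) (by omega)
      obtain ⟨v, hv, hv1, hv2⟩ := block A hA (n - (q + 2)) (n - (q + 2) + 1) (by omega) (by omega)
        (by omega) (by omega)
      have h2 : insert v (A.filter (fun p => n ≤ (p.2 : ℕ) + q)) ⊆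
          A.filter (fun p => n ≤ (p.2 : ℕ) + (q + 2)) := by
        intro w hw
        rw [Finset.mem_insert, Finset.mem_filter] at hw
        rw [Finset.mem_filter]
        rcases hw with rfl | hw
        · exact ⟨hv, by omega⟩
        · exact ⟨hw.1, by omega⟩
      have h3 := Finset.card_le_card h2
      rw [Finset.card_insert_of_notMem (by
        rw [Finset.mem_filter]
        omega)] at h3
      omega

lemma two_lower (hn : 1 ≤ n) (A : Finset (Fin 2 × Fin n)) (hA : FullyInfects (grid 2 n) 3 A) :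
    n / 2 + 2 ≤ A.card := by
  classical
  by_cases h : A = Finset.univ
  · rw [h, Finset.card_univ, Fintype.card_prod, Fintype.card_fin, Fintype.card_fin]
    omega
  · obtain ⟨v, -, B, hB, hadj, hc⟩ := exists_first _ _ A hA h
    set j : ℕ := (v.2 : ℕ) with hj
    have hjn : j < n := v.2.isLt
    have hBsub : B ⊆ A.filter (fun p => j ≤ (p.2 : ℕ) + 1 ∧ (p.2 : ℕ) ≤ j + 1) := by
      intro w hw
      rw [Finset.mem_filter]
      exact ⟨hB hw, (hadj w hw).2.2⟩
    have hmid : 3 ≤ (A.filter (fun p => j ≤ (p.2 : ℕ) + 1 ∧ (p.2 : ℕ) ≤ j + 1)).card :=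
      hc.trans (Finset.card_le_card hBsub)
    have hl := left_bound A hA (j - 1) (by omega)
    have hr := right_bound A hA (n - 2 - j) (by omega)
    have hdis1 : Disjoint (A.filter (fun p => (p.2 : ℕ) < j - 1))
        (A.filter (fun p => j ≤ (p.2 : ℕ) + 1 ∧ (p.2 : ℕ) ≤ j + 1)) := by
      rw [Finset.disjoint_filter]
      intro x _ h1 h2
      omega
    have hdis2 : Disjoint ((A.filter (fun p => (p.2 : ℕ) < j - 1)) ∪
        (A.filter (fun p => j ≤ (p.2 : ℕ) + 1 ∧ (p.2 : ℕ) ≤ j + 1)))
        (A.filter (fun p => n ≤ (p.2 : ℕ) + (n - 2 - j))) := by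
      rw [Finset.disjoint_union_left]
      constructor <;>
      · rw [Finset.disjoint_filter]
        intro x _ h1 h2
        have := x.2.isLt
        omega
    have hsub : ((A.filter (fun p => (p.2 : ℕ) < j - 1)) ∪
        (A.filter (fun p => j ≤ (p.2 : ℕ) + 1 ∧ (p.2 : ℕ) ≤ j + 1))) ∪
        (A.filter (fun p => n ≤ (p.2 : ℕ) + (n - 2 - j))) ⊆ A := by
      intro x hx
      simp only [Finset.mem_union, Finset.mem_filter] at hx
      tauto
    have htot := Finset.card_le_card hsub
    rw [Finset.card_union_of_disjoint hdis2, Finset.card_union_of_disjoint hdis1] at htot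
    omega

lemma two_upper (hn : 1 ≤ n) :
    ∃ A : Finset (Fin 2 × Fin n), A.card ≤ n / 2 + 2 ∧ FullyInfects (grid 2 n) 3 A := by
  classical
  let f : ℕ → Fin 2 × Fin n := fun k =>
    if k = 0 then (1, ⟨0, by omega⟩) else (0, ⟨min (2 * (k - 1)) (n - 1), by omega⟩)
  let A : Finset (Fin 2 × Fin n) := (Finset.range (n / 2 + 2)).image f
  refine ⟨A, ?_, ?_⟩
  · exact Finset.card_image_le.trans (by simp)
  · have m10 : P 2 n A 1 0 := by
      refine ⟨by omega, by omega, ev_of_mem _ _ ?_⟩
      rw [Finset.mem_image]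
      exact ⟨0, by simp, by simp [f]⟩
    have meven : ∀ k, 2 * k < n → P 2 n A 0 (2 * k) := by
      intro k hk
      refine ⟨by omega, by omega, ev_of_mem _ _ ?_⟩
      rw [Finset.mem_image]
      refine ⟨k + 1, ?_, ?_⟩
      · rw [Finset.mem_range]; omega
      · simp only [f, Nat.add_eq_zero_iff, one_ne_zero, and_false, if_false,
          Nat.add_sub_cancel]
        refine Prod.ext rfl (Fin.ext ?_)
        show min (2 * k) (n - 1) = 2 * k
        omega
    have mlast : P 2 n A 0 (n - 1) := by
      refine ⟨by omega, by omega, ev_of_mem _ _ ?_⟩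
      rw [Finset.mem_image]
      refine ⟨n / 2 + 1, ?_, ?_⟩
      · rw [Finset.mem_range]; omega
      · simp only [f, Nat.add_eq_zero_iff, one_ne_zero, and_false, if_false,
          Nat.add_sub_cancel]
        refine Prod.ext rfl (Fin.ext ?_)
        show min (2 * (n / 2)) (n - 1) = n - 1
        omega
    have hodd : ∀ k, 2 * k + 1 < n → P 2 n A 0 (2 * k) → P 2 n A 1 (2 * k) →
        P 2 n A 0 (2 * k + 1) ∧ P 2 n A 1 (2 * k + 1) := by
      intro k hk h0 h1
      by_cases hlast : 2 * k + 2 < n
      · have h2 : P 2 n A 0 (2 * k + 2) := meven (k + 1) (by omega)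
        exact ⟨P_step _ _ _ _ _ _ _ _ (by omega) hk h0 h1 h2
            (by omega) (by omega) (by omega) (by omega) (by omega) (by omega),
          P_step _ _ _ _ _ _ _ _ (by omega) hk h0 h1 h2
            (by omega) (by omega) (by omega) (by omega) (by omega) (by omega)⟩
      · have h2 : P 2 n A 0 (2 * k + 1) := by
          have : n - 1 = 2 * k + 1 := by omega
          rw [← this]; exact mlast
        exact ⟨h2, P_step _ _ _ _ _ _ _ _ (by omega) hk h0 h1 h2
            (by omega) (by omega) (by omega) (by omega) (by omega) (by omega)⟩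
    have heven : ∀ k, 2 * k < n → P 2 n A 0 (2 * k) ∧ P 2 n A 1 (2 * k) := by
      intro k
      induction k with
      | zero => intro h; exact ⟨meven 0 h, m10⟩
      | succ k ih =>
        intro hk
        obtain ⟨h0, h1⟩ := ih (by omega)
        obtain ⟨h2, h3⟩ := hodd k (by omega) h0 h1
        have h4 := meven (k + 1) hk
        exact ⟨h4, P_step _ _ _ _ _ _ _ _ (by omega) hk h2 h3 h4
            (by omega) (by omega) (by omega) (by omega) (by omega) (by omega)⟩
    apply fully_of_P
    intro i j hi hj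
    have hcases : (j = 2 * (j / 2)) ∨ (j = 2 * (j / 2) + 1) := by omega
    rcases hcases with h | h
    · have hh := heven (j / 2) (by omega)
      rw [← h] at hh
      interval_cases i
      · exact hh.1
      · exact hh.2
    · have h0 := heven (j / 2) (by omega)
      have hh := hodd (j / 2) (by omega) h0.1 h0.2
      rw [← h] at hh
      interval_cases i
      · exact hh.1
      · exact hh.2

end two

section swap

lemma map_round {V W : Type*} [Fintype V] [Fintype W] (G : SimpleGraph V) (H : SimpleGraph W)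
    (e : V ≃ W) (he : ∀ v w, H.Adj (e v) (e w) ↔ G.Adj v w) (r : ℕ) (A : Finset V) :
    round H r (A.map e.toEmbedding) = (round G r A).map e.toEmbedding := by
  classical
  ext w
  obtain ⟨v, rfl⟩ := e.surjective w
  have h1 : e v = e.toEmbedding v := rfl
  rw [mem_round]
  rw [h1, Finset.mem_map', Finset.mem_map', mem_round]
  have : ((A.map e.toEmbedding).filter (fun w => H.Adj (e.toEmbedding v) w)) =
      (A.filter (fun w => G.Adj v w)).map e.toEmbedding := by
    ext u
    obtain ⟨x, rfl⟩ := e.surjective u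
    have h2 : e x = e.toEmbedding x := rfl
    rw [h2, Finset.mem_filter, Finset.mem_map', Finset.mem_map', Finset.mem_filter]
    have := he v x
    rw [h1, h2] at this
    rw [this]
  rw [this, Finset.card_map]

lemma fully_map {V W : Type*} [Fintype V] [Fintype W] (G : SimpleGraph V) (H : SimpleGraph W)
    (e : V ≃ W) (he : ∀ v w, H.Adj (e v) (e w) ↔ G.Adj v w) (r : ℕ) (A : Finset V)
    (hA : FullyInfects G r A) : FullyInfects H r (A.map e.toEmbedding) := by
  have key : ∀ t : ℕ, (round H r)^[t] (A.map e.toEmbedding) =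
      ((round G r)^[t] A).map e.toEmbedding := by
    intro t
    induction t with
    | zero => rfl
    | succ t ih =>
      rw [Function.iterate_succ_apply', Function.iterate_succ_apply', ih,
        map_round G H e he]
  intro w
  obtain ⟨v, rfl⟩ := e.surjective w
  obtain ⟨t, ht⟩ := hA v
  refine ⟨t, ?_⟩
  rw [key]
  exact (Finset.mem_map' e.toEmbedding).mpr ht

lemma fully_swap {m n : ℕ} (A : Finset (Fin m × Fin n)) (hA : FullyInfects (grid m n) 3 A) :
    ∃ B : Finset (Fin n × Fin m), B.card = A.card ∧ FullyInfects (grid n m) 3 B := by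
  refine ⟨A.map (Equiv.prodComm (Fin m) (Fin n)).toEmbedding, Finset.card_map _,
    fully_map (grid m n) (grid n m) (Equiv.prodComm (Fin m) (Fin n)) ?_ 3 A hA⟩
  rintro ⟨v1, v2⟩ ⟨w1, w2⟩
  simp only [grid, Equiv.prodComm_apply, Prod.swap_prod_mk, ne_eq, Prod.mk.injEq]
  tauto

end swap

/-- The sizes of the sets that fully infect `P_m ⊠ P_n` under the `3`-neighbour process. -/
def sizes (m n : ℕ) : Set ℕ :=
  {k | ∃ A : Finset (Fin m × Fin n), A.card = k ∧ FullyInfects (grid m n) 3 A}

lemma sizes_swap (m n : ℕ) : sizes m n = sizes n m := by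
  ext k
  constructor
  · rintro ⟨A, rfl, hA⟩
    exact fully_swap A hA
  · rintro ⟨A, rfl, hA⟩
    exact fully_swap A hA

lemma fully_univ (m n : ℕ) : FullyInfects (grid m n) 3 Finset.univ := fun v => ⟨0, by simp⟩

lemma least_one (n : ℕ) : IsLeast (sizes 1 n) n := by
  refine ⟨⟨Finset.univ, by simp, fully_univ 1 n⟩, ?_⟩
  rintro k ⟨A, rfl, hA⟩
  exact (path_card A hA).ge

lemma least_two (n : ℕ) (hn : 1 ≤ n) : IsLeast (sizes 2 n) (n / 2 + 2) := by
  refine ⟨?_, ?_⟩
  · obtain ⟨A, hA1, hA2⟩ := two_upper hn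
    exact ⟨A, le_antisymm hA1 (two_lower hn A hA2), hA2⟩
  · rintro k ⟨A, rfl, hA⟩
    exact two_lower hn A hA

lemma least_big (m n : ℕ) (hm : 3 ≤ m) (hn : 3 ≤ n) : IsLeast (sizes m n) 3 := by
  refine ⟨?_, ?_⟩
  · obtain ⟨A, hA1, hA2⟩ := big_upper hm hn
    exact ⟨A, hA1, hA2⟩
  · rintro k ⟨A, rfl, hA⟩
    apply three_le _ A hA
    nlinarith

/-- **Main theorem.**  The minimum size `m₃(m, n)` of a set of cells which fully infects
`P_m ⊠ P_n` under `3`-neighbour bootstrap percolation, for all `m, n ≥ 1`: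
`m₃(1, n) = n`, `m₃(2, n) = ⌊n / 2⌋ + 2`, `m₃` is symmetric, and `m₃(m, n) = 3` for
`m, n ≥ 3`. -/
theorem result (m n : ℕ) (hm : 1 ≤ m) (hn : 1 ≤ n) :
    IsLeast {k : ℕ | ∃ A : Finset (Fin m × Fin n), A.card = k ∧ FullyInfects (grid m n) 3 A}
      (if m = 1 then n else if n = 1 then m else if m = 2 then n / 2 + 2
        else if n = 2 then m / 2 + 2 else 3) := by
  change IsLeast (sizes m n) _
  split_ifs with h1 h2 h3 h4
  · subst h1; exact least_one n
  · subst h2; rw [sizes_swap]; exact least_one m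
  · subst h3; exact least_two n hn
  · subst h4; rw [sizes_swap]; exact least_two m hm
  · exact least_big m n (by omega) (by omega)

end Pool.Agent.Results.MP_87c242_co.Determination
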